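import Pool.Agent.K1H13.CY.Lab

/-!
# MP_4e56b2_co: closed neighbourhood sums of disjoint unions of cycles

`cycles t` is the disjoint union of the cycles of lengths `t 0, …, t (k - 1)` (all at least four), on the
vertices `(i, x)`, `x` modulo `t i`; `n = ∑ t i`. `IsLabeling f`: `f` is a bijection from the vertices to
`{1, …, n}`. `closedSum G f v = f(N[v])`. `NS`, `NSminus`, `NSspread` are the three parameters of the
problem (a minimum, a maximum and a minimum over all labelings).

THEOREM. Let `k` be odd and `3 ∣ t`, `n = k t`. If `t ≥ 12` is even then
`NS[kC_t] = (3n+6)/2`, `NS⁻[kC_t] = 3n/2`, `NS^sp[kC_t] = 3`. If `t ≥ 21` is odd then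
`NS[kC_t] = 3(n+1)/2 + 2`, `NS⁻[kC_t] = 3(n+1)/2 - 2`, `NS^sp[kC_t] = 4`. The case `k = 1`, `t` odd is part
(a) of the question. (Exceptions are `t = 3, 6, 9, 15`; for these the values for `k = 1` are smaller.)

The proof of the bounds (`GeneralBounds`; here `q = 3 k`). Let all sums be at most `3(n+1)/2 + 1` (`n` odd), and let `u(v) ≥ 0` be the
difference. Then `f(v+3) - f(v) = u(v+1) - u(v+2)`, so neighbouring values of `u` are different, and
`∑ |f(v+3) - f(v)|` is `2 n - 2 B`, `B = ∑ min(u(v), u(v+1))`. Count for every level `x` the steps
`v → v + 3` that cross it upwards. There are at most `q - 1` inner levels without crossings, hence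
`B ≤ q`; and if no edge near `v` has two positive values of `u`, then `u` is alternately zero and
positive, so `v` is a peak or a valley for the steps by three and the numbers of crossings of the two
levels next to `f(v)` differ by one. So `2 (n - B) ≥ 3 n - 4 B - 4 q`, which gives `n ≤ 6 q`.

The labelings. Let `t = 3 m`. One cycle: the classes of the positions modulo three have the labels
`1, …, m`, `m+1, …, 2m`, `2m+1, …, 3m`. In every class the labels go up by three in one third of the time
and down through the other values in the rest of the time, and the three classes go up one after the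
other (`rr`). For `k` cycles every class is divided into `k` intervals of length `m`, and the intervals
are distributed by a Kotzig array with three rows and `k` columns (`kk`), which exists for odd `k`.
-/

set_option autoImplicit false

namespace Pool.Agent.Results.MP_4e56b2_co.ExactValues

open Finset Pool.Agent.K1H13.CY

/-- **The three parameters of `kC_t` for odd `k` and `3 ∣ t`.** -/
theorem result (k t : ℕ) (hk : Odd k) (h3 : 3 ∣ t) :
    (Even t → 12 ≤ t →
      NS (cycles fun _ : Fin k => t) = (3 * (k * t) + 6) / 2 ∧
      NSminus (cycles fun _ : Fin k => t) = 3 * (k * t) / 2 ∧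
      NSspread (cycles fun _ : Fin k => t) = 3) ∧
    (Odd t → 21 ≤ t →
      NS (cycles fun _ : Fin k => t) = 3 * (k * t + 1) / 2 + 2 ∧
      NSminus (cycles fun _ : Fin k => t) = 3 * (k * t + 1) / 2 - 2 ∧
      NSspread (cycles fun _ : Fin k => t) = 4) :=
  exact_values k t hk h3

end Pool.Agent.Results.MP_4e56b2_co.ExactValues
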