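import Pool.Agent.K1H13.CY.Cyc

/-!
# MP_4e56b2_co: bounds for all disjoint unions of cycles of lengths at least four

`cycles t` is the disjoint union of the cycles of lengths `t 0, …, t (k - 1)`, on the vertices `(i, x)`,
`x` modulo `t i`; `n = ∑ t i`. `NS`, `NSminus`, `NSspread` are the three parameters of the problem.

THEOREM. Let `q = ∑ gcd(3, t i)`, the number of the cycles of the map `x ↦ x + 3`. If `n` is odd and
`n > 6 q` then `NS ≥ 3(n+1)/2 + 2`, `NS⁻ ≤ 3(n+1)/2 - 2` and `NS^sp ≥ 4`. If `n` is even and `n > 2 q` then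
`NS ≥ (3n+6)/2`, `NS⁻ ≤ 3n/2` and `NS^sp ≥ 3`.

The conditions are sharp for single cycles: `n > 6 q` fails exactly for the odd `n = 5, 9, 15` (and 3), and
`n > 2 q` only for `n = 6`, the cycles with smaller values.
-/

set_option autoImplicit false

namespace Pool.Agent.Results.MP_4e56b2_co.GeneralBounds

open Finset Pool.Agent.K1H13.CY

/-- **Bounds for the three parameters of all disjoint unions of cycles of lengths at least four.** -/
theorem result (k : ℕ) (t : Fin k → ℕ) (ht : ∀ i, 4 ≤ t i) :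
    (Odd (∑ i, t i) → 6 * ∑ i, Nat.gcd 3 (t i) < ∑ i, t i →
      3 * (∑ i, t i + 1) / 2 + 2 ≤ NS (cycles t) ∧
      NSminus (cycles t) ≤ 3 * (∑ i, t i + 1) / 2 - 2 ∧ 4 ≤ NSspread (cycles t)) ∧
    (Even (∑ i, t i) → 2 * ∑ i, Nat.gcd 3 (t i) < ∑ i, t i →
      (3 * ∑ i, t i + 6) / 2 ≤ NS (cycles t) ∧
      NSminus (cycles t) ≤ 3 * (∑ i, t i) / 2 ∧ 3 ≤ NSspread (cycles t)) :=
  final t ht

end Pool.Agent.Results.MP_4e56b2_co.GeneralBounds
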