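import Pool.Agent.K1H13.CY.Dich

/-!
# MP_4e56b2_co: the growth of the spread of `kC_t` in `k`

`cycles t` is the disjoint union of the cycles of lengths `t 0, …, t (k - 1)`, `closedSum G f v = f(N[v])`,
and `NSspread G` is `NS^sp[G]`, the least possible difference between the maximum and the minimum of
`f(N[v])` over all labelings `f`.

THEOREM. Let `t ≥ 4` and `k ≥ 1`.
* If `3` does not divide `t` then `3 (k t - 1) ≤ (6 t - 5) · NS^sp[kC_t]`, so `NS^sp[kC_t] > (k - 1) / 2`.
* `NS^sp[kC_t] ≤ k (NS^sp[C_t] + 3) - 3`, which is at most `7 k` by the known values for one cycle.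
* If `3` divides `t` and `t ≥ 12` then `NS^sp[kC_t] ≤ t / 3 + 4`, for all `k`.

So for `t ≥ 12` the spread of `kC_t` is bounded in `k` if `t` is divisible by three, and grows exactly like
`k` if `t` is not divisible by three.

Proof. Let `D` be the spread of `f`. The labels of `x` and `x + 3` differ by at most `D`, and if `3` does not
divide `t` then all vertices of a cycle are reached by steps by three. So the labels of the cycle
which contains the label `1` are at most `1 + (t-1) D`, the labels of the cycle which contains the label
`n = kt` are at least `n - (t-1) D`, and `D ≥ 3 (n - (t-1) D) - 3 (1 + (t-1) D)`. The second bound: replace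
the label `a` of one cycle by `k (a - 1) + 1, …, k a` in the `k` copies. The third bound: the labeling of
`ExactValues`; for even `k` the intervals of length `t / 3` are distributed by an array with three rows
and `k` columns whose column sums are equal up to one.
-/

set_option autoImplicit false

namespace Pool.Agent.Results.MP_4e56b2_co.SpreadGrowth

open Pool.Agent.K1H13.CY

/-- **The spread of `kC_t` is of exact order `k` if `3 ∤ t`, and bounded in `k` if `3 ∣ t`.** -/
theorem result (k t : ℕ) (hk : 0 < k) (ht : 4 ≤ t) :
    (¬ 3 ∣ t → 3 * (k * t - 1) ≤ (6 * t - 5) * NSspread (cycles fun _ : Fin k => t)) ∧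
    NSspread (cycles fun _ : Fin k => t) ≤ k * (NSspread (cycles fun _ : Fin 1 => t) + 3) - 3 ∧
    (3 ∣ t → 12 ≤ t → NSspread (cycles fun _ : Fin k => t) ≤ t / 3 + 4) :=
  ⟨fun h3 => low hk ht h3, Nat.le_sub_of_add_le (upp k t hk ht),
    fun h3 h12 => bounded k t hk h3 h12⟩

end Pool.Agent.Results.MP_4e56b2_co.SpreadGrowth
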