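import Pool.Agent.K1H13.CY.Tri

/-!
# MP_4e56b2_co: disjoint unions of triangles

`cycles fun _ : Fin k => 3` is `kC_3`; `NS`, `NSminus`, `NSspread` are the three parameters of the problem.

THEOREM. If `k` is odd then `NS[kC_3] = NS⁻[kC_3] = 3(3k+1)/2` and `NS^sp[kC_3] = 0`. If `k ≥ 2` is even then
`NS[kC_3] = (9k+4)/2`, `NS⁻[kC_3] = (9k+2)/2` and `NS^sp[kC_3] = 1`.

Proof. The mean of the sums is `3(3k+1)/2`. The labelings come from an array with three rows, permutations
of `0, …, k-1`, whose column sums are equal (`k` odd) or equal up to one (`k` even).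
-/

set_option autoImplicit false

namespace Pool.Agent.Results.MP_4e56b2_co.Triangles

open Pool.Agent.K1H13.CY

/-- **The three parameters of the disjoint unions of triangles.** -/
theorem result (k : ℕ) (hk : 0 < k) :
    (Odd k → NS (cycles fun _ : Fin k => 3) = 3 * (3 * k + 1) / 2 ∧
      NSminus (cycles fun _ : Fin k => 3) = 3 * (3 * k + 1) / 2 ∧
      NSspread (cycles fun _ : Fin k => 3) = 0) ∧
    (Even k → NS (cycles fun _ : Fin k => 3) = (9 * k + 4) / 2 ∧
      NSminus (cycles fun _ : Fin k => 3) = (9 * k + 2) / 2 ∧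
      NSspread (cycles fun _ : Fin k => 3) = 1) :=
  tri_values hk

end Pool.Agent.Results.MP_4e56b2_co.Triangles
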